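import Pool.Agent.V7H21.TF.Defs

/-!
# Toads and Frogs: a verified search, parallel over the patterns of the frogs

A position is given by the list `t` of the squares that hold a toad and a number `p` whose bits say
which of the other squares, from left to right, hold a frog.
-/

set_option autoImplicit false

namespace Pool.Agent.V7H21.TF

open Cell Game

/-! ### Moves by recursion on the strip -/

/-- The position with toads at `t` and frogs, among the other squares, at the bits of `p`. -/
def dec : List Bool → ℕ → List Cell
  | [], _ => []
  | true :: t, p => T :: dec t p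
  | false :: t, p => (if p.testBit 0 then F else E) :: dec t (p / 2)

lemma LeftMove.cons (c : Cell) {x y : List Cell} (h : LeftMove x y) :
    LeftMove (c :: x) (c :: y) := by
  cases h with
  | slide u v => exact LeftMove.slide (c :: u) v
  | jump u v => exact LeftMove.jump (c :: u) v

lemma rightMove_cases {c : Cell} {x y : List Cell} (h : RightMove (c :: x) y) :
    (∃ v, c = E ∧ x = F :: v ∧ y = F :: E :: v) ∨
    (∃ v, c = E ∧ x = T :: F :: v ∧ y = F :: T :: E :: v) ∨
    ∃ y', RightMove x y' ∧ y = c :: y' := by
  generalize hz : c :: x = z at h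
  cases h with
  | slide u v =>
    cases u with
    | nil =>
      simp only [List.nil_append, List.cons_append, List.cons.injEq] at hz
      exact Or.inl ⟨v, hz.1, hz.2, rfl⟩
    | cons d u =>
      simp only [List.cons_append, List.cons.injEq] at hz
      exact Or.inr (Or.inr ⟨u ++ [F, E] ++ v, hz.2 ▸ RightMove.slide u v, by simp [hz.1]⟩)
  | jump u v =>
    cases u with
    | nil =>
      simp only [List.nil_append, List.cons_append, List.cons.injEq] at hz
      exact Or.inr (Or.inl ⟨v, hz.1, hz.2, rfl⟩)
    | cons d u =>
      simp only [List.cons_append, List.cons.injEq] at hz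
      exact Or.inr (Or.inr ⟨u ++ [F, T, E] ++ v, hz.2 ▸ RightMove.jump u v, by simp [hz.1]⟩)

lemma rightMove_nil {y : List Cell} (h : RightMove [] y) : False := by
  generalize hz : ([] : List Cell) = z at h
  cases h <;> simp at hz

/-- The slides of the toads: the number of squares without toad before the empty square used, and
the new squares of the toads. -/
def slides : List Bool → List (ℕ × List Bool)
  | true :: false :: t => (0, false :: true :: t) ::
      (slides (false :: t)).map (fun q => (q.1, true :: q.2))
  | true :: t => (slides t).map (fun q => (q.1, true :: q.2))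
  | false :: t => (slides t).map (fun q => (q.1 + 1, false :: q.2))
  | [] => []

/-- The possible jumps of the toads. -/
def jumps : List Bool → List (ℕ × List Bool)
  | true :: false :: false :: t => (0, false :: false :: true :: t) ::
      (jumps (false :: false :: t)).map (fun q => (q.1, true :: q.2))
  | true :: t => (jumps t).map (fun q => (q.1, true :: q.2))
  | false :: t => (jumps t).map (fun q => (q.1 + 1, false :: q.2))
  | [] => []

/-- The places at which a frog can move one place to the left among the squares without toad. -/
def gaps : List Bool → List ℕ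
  | false :: false :: t => 0 :: (gaps (false :: t)).map (· + 1)
  | false :: true :: false :: t => 0 :: (gaps (true :: false :: t)).map (· + 1)
  | false :: t => (gaps t).map (· + 1)
  | true :: t => gaps t
  | [] => []

lemma slides_sound : ∀ (t : List Bool) (q : ℕ × List Bool), q ∈ slides t → ∀ p : ℕ,
    p.testBit q.1 = false → LeftMove (dec t p) (dec q.2 p)
  | [], q, h, p, hp => by simp [slides] at h
  | true :: false :: t, q, h, p, hp => by
    rcases List.mem_cons.1 h with h | h
    · subst h
      simp only at hp
      simp only [dec, hp]
      exact LeftMove.slide [] _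
    · obtain ⟨q', h1, rfl⟩ := List.mem_map.1 h
      exact (slides_sound (false :: t) q' h1 p hp).cons T
  | [true], q, h, p, hp => by simp [slides] at h
  | true :: true :: t, q, h, p, hp => by
    simp only [slides, List.mem_map] at h
    obtain ⟨q', h, rfl⟩ := h
    exact (slides_sound (true :: t) q' (by simpa only [slides, List.mem_map] using h) p hp).cons T
  | false :: t, q, h, p, hp => by
    simp only [slides, List.mem_map] at h
    obtain ⟨q', h, rfl⟩ := h
    simp only [Nat.testBit_succ] at hp
    exact (slides_sound t q' h (p / 2) hp).cons _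

lemma jumps_sound : ∀ (t : List Bool) (q : ℕ × List Bool), q ∈ jumps t → ∀ p : ℕ,
    p.testBit q.1 = true → p.testBit (q.1 + 1) = false →
    LeftMove (dec t p) (dec q.2 (p + 2 ^ q.1))
  | [], q, h, p, hp, hp' => by simp [jumps] at h
  | true :: false :: false :: t, q, h, p, hp, hp' => by
    rcases List.mem_cons.1 h with h | h
    · subst h
      simp only at hp hp'
      have h0 : p % 2 = 1 := by simpa [Nat.testBit_zero] using hp
      have h1 : p / 2 % 2 = 0 := by
        rw [Nat.testBit_succ] at hp'
        simpa [Nat.testBit_zero] using hp'
      have e1 : (p + 2 ^ 0).testBit 0 = false := by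
        rw [Nat.testBit_zero]
        simp only [pow_zero, decide_eq_false_iff_not]
        omega
      have e2 : ((p + 2 ^ 0) / 2).testBit 0 = true := by
        rw [Nat.testBit_zero]
        simp only [pow_zero, decide_eq_true_eq]
        omega
      have e3 : (p + 2 ^ 0) / 2 / 2 = p / 2 / 2 := by
        simp only [pow_zero]
        omega
      have e4 : (p / 2).testBit 0 = false := by
        rw [Nat.testBit_zero]
        simp only [decide_eq_false_iff_not]
        omega
      simp only [dec, hp, e1, e2, e3, e4]
      exact LeftMove.jump [] _
    · obtain ⟨q', h1, rfl⟩ := List.mem_map.1 h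
      exact (jumps_sound (false :: false :: t) q' h1 p hp hp').cons T
  | [true], q, h, p, hp, hp' => by simp [jumps] at h
  | [true, false], q, h, p, hp, hp' => by simp [jumps] at h
  | true :: false :: true :: t, q, h, p, hp, hp' => by
    simp only [jumps, List.mem_map] at h
    obtain ⟨q', h, rfl⟩ := h
    exact (jumps_sound (false :: true :: t) q'
      (by simpa only [jumps, List.mem_map] using h) p hp hp').cons T
  | true :: true :: t, q, h, p, hp, hp' => by
    simp only [jumps, List.mem_map] at h
    obtain ⟨q', h, rfl⟩ := h
    exact (jumps_sound (true :: t) q'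
      (by simpa only [jumps, List.mem_map] using h) p hp hp').cons T
  | false :: t, q, h, p, hp, hp' => by
    simp only [jumps, List.mem_map] at h
    obtain ⟨q', h, rfl⟩ := h
    simp only [Nat.testBit_succ] at hp hp'
    have e0 : (p + 2 ^ (q'.1 + 1)).testBit 0 = p.testBit 0 := by
      rw [Nat.testBit_zero, Nat.testBit_zero, pow_succ]
      congr 1
      rw [Nat.add_mul_mod_self_right]
    have e1 : (p + 2 ^ (q'.1 + 1)) / 2 = p / 2 + 2 ^ q'.1 := by
      rw [pow_succ]
      omega
    simp only [dec, e0, e1]
    exact (jumps_sound t q' h (p / 2) hp (by rw [Nat.testBit_succ]; exact hp')).cons _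

lemma two_pow_le_of_testBit {p k : ℕ} (h : p.testBit k = true) : 2 ^ k ≤ p :=
  Nat.ge_two_pow_of_testBit h

lemma gaps_complete : ∀ (t : List Bool) (p : ℕ) (y : List Cell), RightMove (dec t p) y →
    ∃ k ∈ gaps t, p.testBit k = false ∧ p.testBit (k + 1) = true ∧ y = dec t (p - 2 ^ k) := by
  intro t
  induction t with
  | nil => intro p y h; exact (rightMove_nil h).elim
  | cons b t ih =>
    intro p y h
    cases b with
    | true =>
      rcases rightMove_cases h with ⟨v, h1, -, -⟩ | ⟨v, h1, -, -⟩ | ⟨y', h1, rfl⟩
      · exact absurd h1 (by decide)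
      · exact absurd h1 (by decide)
      · obtain ⟨k, hk, h2, h3, h4⟩ := ih p y' h1
        exact ⟨k, by simpa only [gaps] using hk, h2, h3, by rw [h4]; rfl⟩
    | false =>
      have key : ∀ (s : List Bool) (p : ℕ), p % 2 = 0 → p / 2 % 2 = 1 →
          dec s ((p - 2 ^ 0) / 2 / 2) = dec s (p / 2 / 2) ∧ (p - 2 ^ 0).testBit 0 = true ∧
          ((p - 2 ^ 0) / 2).testBit 0 = false := by
        intro s p h0 h1
        refine ⟨?_, ?_, ?_⟩
        · have : (p - 2 ^ 0) / 2 / 2 = p / 2 / 2 := by
            simp only [pow_zero]
            omega
          rw [this]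
        · rw [Nat.testBit_zero]
          simp only [pow_zero, decide_eq_true_eq]
          omega
        · rw [Nat.testBit_zero]
          simp only [pow_zero, decide_eq_false_iff_not]
          omega
      rcases rightMove_cases h with ⟨v, h1, h2, rfl⟩ | ⟨v, h1, h2, rfl⟩ | ⟨y', h1, rfl⟩
      · -- slide at the head
        have hp0 : p.testBit 0 = false := by
          by_contra hc
          rw [Bool.not_eq_false] at hc
          rw [if_pos hc] at h1
          exact absurd h1 (by decide)
        cases t with
        | nil => simp [dec] at h2
        | cons b' t =>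
          cases b' with
          | true => simp [dec] at h2
          | false =>
            simp only [dec, List.cons.injEq] at h2
            have hp1 : (p / 2).testBit 0 = true := by
              by_contra hc
              rw [if_neg hc] at h2
              exact absurd h2.1 (by decide)
            have e0 : p % 2 = 0 := by
              rw [Nat.testBit_zero] at hp0
              simp only [decide_eq_false_iff_not] at hp0
              omega
            have e1 : p / 2 % 2 = 1 := by
              rw [Nat.testBit_zero] at hp1
              simpa using hp1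
            obtain ⟨k1, k2, k3⟩ := key t p e0 e1
            refine ⟨0, by simp [gaps], hp0, by rw [Nat.testBit_succ]; exact hp1, ?_⟩
            simp only [dec, k1, k2, k3, ← h2.2]
            rfl
      · -- jump at the head
        have hp0 : p.testBit 0 = false := by
          by_contra hc
          rw [Bool.not_eq_false] at hc
          rw [if_pos hc] at h1
          exact absurd h1 (by decide)
        cases t with
        | nil => simp [dec] at h2
        | cons b' t =>
          cases b' with
          | false =>
            simp only [dec, List.cons.injEq] at h2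
            exfalso
            have := h2.1
            split_ifs at this
          | true =>
            cases t with
            | nil => simp [dec] at h2
            | cons b' t =>
              cases b' with
              | true => simp [dec] at h2
              | false =>
                simp only [dec, List.cons.injEq, true_and] at h2
                have hp1 : (p / 2).testBit 0 = true := by
                  by_contra hc
                  rw [if_neg hc] at h2
                  exact absurd h2.1 (by decide)
                have e0 : p % 2 = 0 := by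
                  rw [Nat.testBit_zero] at hp0
                  simp only [decide_eq_false_iff_not] at hp0
                  omega
                have e1 : p / 2 % 2 = 1 := by
                  rw [Nat.testBit_zero] at hp1
                  simpa using hp1
                obtain ⟨k1, k2, k3⟩ := key t p e0 e1
                refine ⟨0, by simp [gaps], hp0, by rw [Nat.testBit_succ]; exact hp1, ?_⟩
                simp only [dec, k1, k2, k3, ← h2.2]
                rfl
      · obtain ⟨k, hk, h2, h3, h4⟩ := ih (p / 2) y' h1
        rw [← Nat.testBit_succ] at h2 h3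
        have h5 := two_pow_le_of_testBit h3
        have h6 : 2 ^ (k + 1) ≤ p := le_trans (Nat.pow_le_pow_right (by norm_num) (by omega)) h5
        refine ⟨k + 1, ?_, h2, h3, ?_⟩
        · rcases t with _ | ⟨b', t⟩
          · simp [gaps] at hk
          · cases b' with
            | false =>
              simp only [gaps, List.mem_cons, List.mem_map]
              exact Or.inr ⟨k, hk, rfl⟩
            | true =>
              rcases t with _ | ⟨b'', t⟩
              · simp [gaps] at hk
              · cases b'' with
                | false =>
                  simp only [gaps, List.mem_cons, List.mem_map] at hk ⊢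
                  exact Or.inr ⟨k, hk, rfl⟩
                | true =>
                  simp only [gaps, List.mem_map] at hk ⊢
                  exact ⟨k, hk, rfl⟩
        · have e0 : (p - 2 ^ (k + 1)).testBit 0 = p.testBit 0 := by
            rw [Nat.testBit_zero, Nat.testBit_zero]
            rw [pow_succ] at h6 ⊢
            congr 1
            rw [eq_iff_iff]
            omega
          have e1 : (p - 2 ^ (k + 1)) / 2 = p / 2 - 2 ^ k := by
            rw [pow_succ] at h6 ⊢
            omega
          simp only [dec, e0, e1, h4]

/-! ### Outcomes -/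

/-- Right can make at most `m` moves in `H`. -/
def Tempo : ℕ → Game → Prop
  | 0, mk _ β _ _ => IsEmpty β
  | m + 1, mk _ _ _ R => ∀ j, Tempo m (R j)

/-- Right, moving first, loses in the position `x` together with `m` free moves of Right. -/
def RL (m : ℕ) (x : List Cell) : Prop := ∀ H, Tempo m H → ¬ (wins (add (value x) H)).2

/-- Left, moving first, wins in the position `x` together with `m` free moves of Right. -/
def LW (m : ℕ) (x : List Cell) : Prop := ∀ H, Tempo m H → (wins (add (value x) H)).1

lemma LW_of {m : ℕ} {x y : List Cell} (h : LeftMove x y) (hy : RL m y) : LW m x := by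
  rintro ⟨α, β, L, R⟩ hH
  rw [value]
  simp only [add, addAux, wins]
  exact ⟨Sum.inl ⟨y, h⟩, hy _ hH⟩

lemma RL_zero {x : List Cell} (h : ∀ y, RightMove x y → LW 0 y) : RL 0 x := by
  rintro ⟨α, β, L, R⟩ hH
  have hb : IsEmpty β := hH
  rw [value]
  simp only [add, addAux, wins]
  rintro ⟨j, hj⟩
  rcases j with j | j
  · exact hj (h j.1 j.2 _ hH)
  · exact hb.elim j

lemma RL_succ {m : ℕ} {x : List Cell} (h : ∀ y, RightMove x y → LW (m + 1) y) (h' : LW m x) :
    RL (m + 1) x := by
  rintro ⟨α, β, L, R⟩ hH
  have hb : ∀ j, Tempo m (R j) := hH
  have hv : ∀ K, Tempo m K → (wins (add (value x) K)).1 := h'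
  rw [value] at hv ⊢
  simp only [add, addAux, wins]
  rintro ⟨j, hj⟩
  rcases j with j | j
  · exact hj (h j.1 j.2 _ hH)
  · exact hj (hv _ (hb j))

/-! ### Sets of patterns as numbers -/

/-- The set of the numbers `p < 2 ^ K` with bit `k` equal to zero. -/
def eb : ℕ → ℕ → ℕ
  | 0, _ => 1
  | K + 1, k => if K = k then eb K k else eb K k + 2 ^ 2 ^ K * eb K k

lemma eb_lt (K k : ℕ) : eb K k < 2 ^ 2 ^ K := by
  induction K with
  | zero => simp [eb]
  | succ K ih =>
    have h : 2 ^ 2 ^ (K + 1) = 2 ^ 2 ^ K * 2 ^ 2 ^ K := by
      rw [← pow_add, pow_succ]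
      congr 1
      omega
    unfold eb
    split_ifs
    · rw [h]
      nlinarith [Nat.one_le_two_pow (n := 2 ^ K)]
    · rw [h]
      have : eb K k + 1 ≤ 2 ^ 2 ^ K := ih
      nlinarith

lemma testBit_eb (K k p : ℕ) : (eb K k).testBit p = true ↔ p < 2 ^ K ∧ p.testBit k = false := by
  induction K generalizing p with
  | zero =>
    constructor
    · intro h
      rcases Nat.eq_zero_or_pos p with rfl | hp
      · simp
      · simp only [eb] at h
        rw [Nat.testBit_lt_two_pow (x := 1) (i := p)
          (Nat.one_lt_two_pow (by omega))] at h
        exact absurd h (by decide)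
    · rintro ⟨h, -⟩
      have : p = 0 := by simpa using h
      subst this
      simp [eb]
  | succ K ih =>
    have hlt := eb_lt K k
    have hpow : 2 ^ (K + 1) = 2 ^ K + 2 ^ K := by rw [pow_succ]; omega
    by_cases hp : p < 2 ^ K
    · have hk : p < 2 ^ (K + 1) := by omega
      unfold eb
      split_ifs with hKk
      · rw [ih p]
        simp [hp, hk]
      · rw [add_comm, Nat.testBit_two_pow_mul_add _ hlt, if_pos hp, ih p]
        simp [hp, hk]
    · unfold eb
      split_ifs with hKk
      · rw [Nat.testBit_lt_two_pow (lt_of_lt_of_le hlt
          (Nat.pow_le_pow_right (by norm_num) (by omega)))]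
        subst hKk
        simp only [Bool.false_eq_true, false_iff, not_and, Bool.not_eq_false]
        intro hlt2
        rw [Nat.testBit_eq_decide_div_mod_eq]
        have : p / 2 ^ K = 1 := by
          rw [Nat.div_eq_iff (by positivity)]
          constructor <;> omega
        simp [this]
      · rw [add_comm, Nat.testBit_two_pow_mul_add _ hlt, if_neg hp, ih (p - 2 ^ K)]
        by_cases h3 : p < 2 ^ (K + 1)
        · have h4 : p = 2 ^ K + (p - 2 ^ K) := by omega
          have h5 : p.testBit k = (p - 2 ^ K).testBit k := by
            conv_lhs => rw [h4]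
            have h6 : (2 ^ K * 1 + (p - 2 ^ K)).testBit k =
                if k < K then (p - 2 ^ K).testBit k else (1 : ℕ).testBit (k - K) :=
              Nat.testBit_two_pow_mul_add 1 (by omega) k
            rw [mul_one] at h6
            rw [h6]
            split_ifs with h7
            · rfl
            · have h8 : K < k := by omega
              rw [Nat.testBit_lt_two_pow (x := 1) (i := k - K)
                (Nat.one_lt_two_pow (by omega)),
                Nat.testBit_lt_two_pow (x := p - 2 ^ K) (i := k)
                (lt_of_lt_of_le (show p - 2 ^ K < 2 ^ K by omega)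
                  (Nat.pow_le_pow_right (by norm_num) h8.le))]
          rw [h5]
          have h6 : p - 2 ^ K < 2 ^ K := by omega
          simp [h3, h6]
        · have h6 : ¬ p - 2 ^ K < 2 ^ K := by omega
          simp [h3, h6]

/-- The patterns in which no frog stands at place `k + 1` with place `k` empty. -/
def nmv (width k : ℕ) : ℕ :=
  (2 ^ 2 ^ width - 1) ^^^ (eb width k &&& ((2 ^ 2 ^ width - 1) ^^^ eb width (k + 1)))

/-- The patterns with a frog at place `k` and place `k + 1` empty. -/
def jm (width k : ℕ) : ℕ := ((2 ^ 2 ^ width - 1) ^^^ eb width k) &&& eb width (k + 1)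

lemma nmv_sound {width k p : ℕ} (h : (nmv width k).testBit p = true) (h1 : p.testBit k = false)
    (h2 : p.testBit (k + 1) = true) : False := by
  unfold nmv at h
  rw [Nat.testBit_xor, Nat.testBit_and, Nat.testBit_xor, Nat.testBit_two_pow_sub_one] at h
  have e2 : (eb width (k + 1)).testBit p = false := by
    by_contra hc
    rw [Bool.not_eq_false, testBit_eb] at hc
    rw [hc.2] at h2
    exact absurd h2 (by decide)
  by_cases hp : p < 2 ^ width
  · have e1 : (eb width k).testBit p = true := (testBit_eb _ _ _).2 ⟨hp, h1⟩
    simp [hp, e1, e2] at h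
  · simp [hp, e2] at h

lemma jm_sound {width k p : ℕ} (h : (jm width k).testBit p = true) :
    p.testBit k = true ∧ p.testBit (k + 1) = false := by
  unfold jm at h
  rw [Nat.testBit_and, Nat.testBit_xor, Nat.testBit_two_pow_sub_one, Bool.and_eq_true,
    testBit_eb] at h
  obtain ⟨h1, h2, h3⟩ := h
  refine ⟨?_, h3⟩
  by_contra hc
  rw [Bool.not_eq_true] at hc
  have e1 : (eb width k).testBit p = true := (testBit_eb _ _ _).2 ⟨h2, hc⟩
  simp [h2, e1] at h1

/-! ### The search -/

/-- Squares of the toads, a code for them, and two sets of patterns of the frogs. -/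
structure Ent where
  key : ℕ
  board : List Bool
  w0 : ℕ
  w1 : ℕ

/-- Code of a set of squares. -/
def enc : List Bool → ℕ
  | [] => 0
  | true :: t => 2 * enc t + 1
  | false :: t => 2 * enc t

/-- Equality of lists of truth values. -/
def eqb : List Bool → List Bool → Bool
  | [], [] => true
  | true :: s, true :: t => eqb s t
  | false :: s, false :: t => eqb s t
  | _, _ => false

lemma eqb_eq : ∀ {s t : List Bool}, eqb s t = true → s = t
  | [], [], _ => rfl
  | true :: s, true :: t, h => by rw [eqb_eq (s := s) (t := t) h]
  | false :: s, false :: t, h => by rw [eqb_eq (s := s) (t := t) h]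
  | [], b :: t, h => by cases b <;> simp [eqb] at h
  | b :: s, [], h => by cases b <;> simp [eqb] at h
  | true :: s, false :: t, h => by simp [eqb] at h
  | false :: s, true :: t, h => by simp [eqb] at h

/-- The entry for given squares of the toads. -/
def find (k : ℕ) (t : List Bool) : List Ent → Ent
  | [] => ⟨0, t, 0, 0⟩
  | e :: l => cond (Nat.beq e.key k) (cond (eqb e.board t) e ⟨0, t, 0, 0⟩) (find k t l)

/-- The entries are sound. -/
def Sound (e : Ent) : Prop :=
  ∀ p : ℕ, (e.w0.testBit p = true → RL 0 (dec e.board p)) ∧
    (e.w1.testBit p = true → RL 1 (dec e.board p))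

lemma find_sound (k : ℕ) (t : List Bool) : ∀ l : List Ent, (∀ e ∈ l, Sound e) →
    Sound (find k t l) ∧ (find k t l).board = t
  | [], _ => ⟨fun p => by simp [find], rfl⟩
  | e :: l, h => by
    unfold find
    cases Nat.beq e.key k with
    | false => exact find_sound k t l (fun e he => h e (List.mem_cons_of_mem _ he))
    | true =>
      cases h2 : eqb e.board t with
      | true => exact ⟨h e (List.mem_cons_self ..), eqb_eq h2⟩
      | false => exact ⟨fun p => by simp, rfl⟩

/-- Patterns in which Left has a good slide. -/
def slideSet (width : ℕ) (w : Ent → ℕ) (acc : List Ent) : List (ℕ × List Bool) → ℕ → ℕ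
  | [], x => x
  | q :: l, x => slideSet width w acc l (x ||| (w (find (enc q.2) q.2 acc) &&& eb width q.1))

/-- Patterns in which Left has a good jump. -/
def jumpSet (width : ℕ) (w : Ent → ℕ) (acc : List Ent) : List (ℕ × List Bool) → ℕ → ℕ
  | [], x => x
  | q :: l, x => jumpSet width w acc l (x ||| ((w (find (enc q.2) q.2 acc) >>> 2 ^ q.1) &&& jm width q.1))

/-- Patterns in which all moves of Right lead to `x`. -/
def rightSet (width x : ℕ) : List ℕ → ℕ → ℕ
  | [], y => y
  | k :: l, y => rightSet width x l (y &&& (nmv width k ||| (x <<< 2 ^ k)))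

lemma slideSet_sound {width m : ℕ} (w : Ent → ℕ) (acc : List Ent) (t : List Bool)
    (hacc : ∀ e ∈ acc, Sound e)
    (hw : ∀ e, Sound e → ∀ p, (w e).testBit p = true → RL m (dec e.board p)) :
    ∀ (l : List (ℕ × List Bool)) (x : ℕ), (∀ q ∈ l, q ∈ slides t) →
      (∀ p, x.testBit p = true → LW m (dec t p)) →
      ∀ p, (slideSet width w acc l x).testBit p = true → LW m (dec t p)
  | [], x, _, hx => hx
  | q :: l, x, hl, hx => by
    refine slideSet_sound w acc t hacc hw l _ (fun q' hq' => hl q' (List.mem_cons_of_mem _ hq')) ?_
    intro p hp
    rw [Nat.testBit_or, Bool.or_eq_true, Nat.testBit_and, Bool.and_eq_true] at hp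
    rcases hp with hp | ⟨h1, h2⟩
    · exact hx p hp
    · obtain ⟨h3, h4⟩ := find_sound (enc q.2) q.2 acc hacc
      have h5 := hw _ h3 p h1
      rw [h4] at h5
      exact LW_of (slides_sound t q (hl q (List.mem_cons_self ..)) p ((testBit_eb _ _ _).1 h2).2) h5

lemma jumpSet_sound {width m : ℕ} (w : Ent → ℕ) (acc : List Ent) (t : List Bool)
    (hacc : ∀ e ∈ acc, Sound e)
    (hw : ∀ e, Sound e → ∀ p, (w e).testBit p = true → RL m (dec e.board p)) :
    ∀ (l : List (ℕ × List Bool)) (x : ℕ), (∀ q ∈ l, q ∈ jumps t) →
      (∀ p, x.testBit p = true → LW m (dec t p)) →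
      ∀ p, (jumpSet width w acc l x).testBit p = true → LW m (dec t p)
  | [], x, _, hx => hx
  | q :: l, x, hl, hx => by
    refine jumpSet_sound w acc t hacc hw l _ (fun q' hq' => hl q' (List.mem_cons_of_mem _ hq')) ?_
    intro p hp
    rw [Nat.testBit_or, Bool.or_eq_true, Nat.testBit_and, Bool.and_eq_true,
      Nat.testBit_shiftRight] at hp
    rcases hp with hp | ⟨h1, h2⟩
    · exact hx p hp
    · obtain ⟨h3, h4⟩ := find_sound (enc q.2) q.2 acc hacc
      have h5 := hw _ h3 _ h1
      rw [h4, add_comm] at h5
      obtain ⟨h6, h7⟩ := jm_sound h2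
      exact LW_of (jumps_sound t q (hl q (List.mem_cons_self ..)) p h6 h7) h5

lemma rightSet_sound {width m : ℕ} (t : List Bool) (x : ℕ)
    (hx : ∀ p, x.testBit p = true → LW m (dec t p)) :
    ∀ (l : List ℕ) (y : ℕ), ∀ p, (rightSet width x l y).testBit p = true →
      y.testBit p = true ∧ ∀ k ∈ l, p.testBit k = false → p.testBit (k + 1) = true →
        LW m (dec t (p - 2 ^ k))
  | [], y, p, hp => ⟨hp, by simp⟩
  | k :: l, y, p, hp => by
    obtain ⟨h1, h2⟩ := rightSet_sound t x hx l _ p hp
    rw [Nat.testBit_and, Bool.and_eq_true, Nat.testBit_or, Bool.or_eq_true,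
      Nat.testBit_shiftLeft, Bool.and_eq_true] at h1
    refine ⟨h1.1, ?_⟩
    intro k' hk' h3 h4
    rcases List.mem_cons.1 hk' with rfl | hk'
    · rcases h1.2 with h5 | h5
      · exact (nmv_sound h5 h3 h4).elim
      · exact hx _ h5.2
    · exact h2 k' hk' h3 h4

/-- The identity, written so that the number is evaluated first. -/
def force {β : Type} (n : ℕ) (k : ℕ → β) : β :=
  match n with
  | 0 => k 0
  | m + 1 => k (m + 1)

lemma force_eq {β : Type} (n : ℕ) (k : ℕ → β) : force n k = k n := by
  cases n <;> rfl

/-- Squares of the toads with given code. -/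
def bd : ℕ → ℕ → List Bool
  | 0, _ => []
  | n + 1, t => Nat.beq (t % 2) 1 :: bd n (t / 2)

/-- The search: the entries for the squares in the list are computed one after another; at the end
the set of patterns for two given entries is tested at the pattern `p`. -/
def run (width n s s' p : ℕ) : List ℕ → List Ent → Bool
  | [], acc => (find s (bd n s) acc).w1.testBit p && (find s' (bd n s') acc).w1.testBit p
  | t :: l, acc =>
    force (jumpSet width Ent.w0 acc (jumps (bd n t)) (slideSet width Ent.w0 acc (slides (bd n t)) 0)) fun x0 =>
    force (jumpSet width Ent.w1 acc (jumps (bd n t)) (slideSet width Ent.w1 acc (slides (bd n t)) 0)) fun x1 =>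
    force (rightSet width x0 (gaps (bd n t)) (2 ^ 2 ^ width - 1)) fun w0 =>
    force (rightSet width x1 (gaps (bd n t)) x0) fun w1 =>
    run width n s s' p l (⟨t, bd n t, w0, w1⟩ :: acc)

lemma run_sound (width n s s' p : ℕ) : ∀ (l : List ℕ) (acc : List Ent), (∀ e ∈ acc, Sound e) →
    run width n s s' p l acc = true → RL 1 (dec (bd n s) p) ∧ RL 1 (dec (bd n s') p)
  | [], acc, hacc, h => by
    simp only [run, Bool.and_eq_true] at h
    obtain ⟨h1, h2⟩ := find_sound s (bd n s) acc hacc
    obtain ⟨h3, h4⟩ := find_sound s' (bd n s') acc hacc
    have h5 := (h1 p).2 h.1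
    have h6 := (h3 p).2 h.2
    rw [h2] at h5
    rw [h4] at h6
    exact ⟨h5, h6⟩
  | t :: l, acc, hacc, h => by
    simp only [run, force_eq] at h
    refine run_sound width n s s' p l _ ?_ h
    intro e he
    rcases List.mem_cons.1 he with rfl | he
    swap
    · exact hacc e he
    have hx0 := jumpSet_sound (width := width) (m := 0) Ent.w0 acc (bd n t) hacc (fun e he p => (he p).1)
      (jumps (bd n t)) _ (fun q hq => hq) (slideSet_sound (width := width) (m := 0) Ent.w0 acc (bd n t) hacc
        (fun e he p => (he p).1) (slides (bd n t)) 0 (fun q hq => hq) (by simp))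
    have hx1 := jumpSet_sound (width := width) (m := 1) Ent.w1 acc (bd n t) hacc (fun e he p => (he p).2)
      (jumps (bd n t)) _ (fun q hq => hq) (slideSet_sound (width := width) (m := 1) Ent.w1 acc (bd n t) hacc
        (fun e he p => (he p).2) (slides (bd n t)) 0 (fun q hq => hq) (by simp))
    intro q
    refine ⟨fun h1 => ?_, fun h1 => ?_⟩
    · obtain ⟨-, h3⟩ := rightSet_sound (m := 0) (bd n t) _ hx0 _ _ q h1
      refine RL_zero fun y hy => ?_
      obtain ⟨k, hk, e1, e2, rfl⟩ := gaps_complete _ _ _ hy
      exact h3 k hk e1 e2
    · obtain ⟨h2, h3⟩ := rightSet_sound (m := 1) (bd n t) _ hx1 _ _ q h1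
      refine RL_succ (fun y hy => ?_) (hx0 q h2)
      obtain ⟨k, hk, e1, e2, rfl⟩ := gaps_complete _ _ _ hy
      exact h3 k hk e1 e2

end Pool.Agent.V7H21.TF
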