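import Mathlib

/-!
# Conway's partizan games and the game Toads and Frogs
-/

set_option autoImplicit false

namespace Pool.Agent.V7H21.TF

/-- A partizan game: a family of Left options and a family of Right options. -/
inductive Game : Type 1
  | mk (α β : Type) (L : α → Game) (R : β → Game) : Game

namespace Game

/-- The negative of a game: the roles of Left and Right are exchanged. -/
def neg : Game → Game
  | mk α β L R => mk β α (fun j => neg (R j)) (fun i => neg (L i))

/-- Auxiliary definition for the sum `mk α β L R + H`: here `L i` is the function `K ↦ L i + K`. -/
def addAux {α β : Type} (L : α → Game → Game) (R : β → Game → Game) : Game → Game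
  | mk α' β' L' R' => mk (α ⊕ α') (β ⊕ β')
      (Sum.elim (fun i => L i (mk α' β' L' R')) (fun i => addAux L R (L' i)))
      (Sum.elim (fun j => R j (mk α' β' L' R')) (fun j => addAux L R (R' j)))

/-- The disjunctive sum `G + H`: its Left options are the games `G' + H` and `G + H'` with `G'` a
Left option of `G` and `H'` a Left option of `H`, and similarly for Right. -/
def add : Game → Game → Game
  | mk _ _ L R => addAux (fun i => add (L i)) (fun j => add (R j))

/-- `(wins G).1`: Left, moving first, wins `G`; `(wins G).2`: Right, moving first, wins `G`.  Play is
normal: a player without a move loses. -/
def wins : Game → Prop × Prop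
  | mk _ _ L R => (∃ i, ¬ (wins (L i)).2, ∃ j, ¬ (wins (R j)).1)

/-- The player who moves second wins `G`. -/
def SecondWins (G : Game) : Prop := ¬ (wins G).1 ∧ ¬ (wins G).2

/-- Equality of values: `G = H` when `G - H` is a win for the second player. -/
def Equal (G H : Game) : Prop := SecondWins (add G (neg H))

/-- The game `0 = { | }`. -/
def zero : Game := mk Empty Empty Empty.elim Empty.elim

/-- The game `1 = {0 | }`. -/
def one : Game := mk Unit Empty (fun _ => zero) Empty.elim

/-- The game `* = {0 | 0}`. -/
def star : Game := mk Unit Unit (fun _ => zero) (fun _ => zero)

end Game

/-- The content of a square: empty, a toad or a frog. -/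
inductive Cell : Type
  | E | T | F
  deriving DecidableEq

open Cell

/-- The moves of Left: one toad moves one square to the right into an empty square, or jumps
rightward over exactly one frog into the empty square immediately beyond. -/
inductive LeftMove : List Cell → List Cell → Prop
  | slide (u v : List Cell) : LeftMove (u ++ [T, E] ++ v) (u ++ [E, T] ++ v)
  | jump (u v : List Cell) : LeftMove (u ++ [T, F, E] ++ v) (u ++ [E, F, T] ++ v)

/-- The moves of Right: one frog moves one square to the left into an empty square, or jumps
leftward over exactly one toad into the empty square immediately beyond. -/
inductive RightMove : List Cell → List Cell → Prop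
  | slide (u v : List Cell) : RightMove (u ++ [E, F] ++ v) (u ++ [F, E] ++ v)
  | jump (u v : List Cell) : RightMove (u ++ [E, T, F] ++ v) (u ++ [F, T, E] ++ v)

/-- A bound for the number of moves left (every move lowers it by one). -/
def height : List Cell → ℕ
  | [] => 0
  | E :: v => v.count F + height v
  | T :: v => v.count E + v.count F + height v
  | F :: v => height v

lemma height_append (u : List Cell) {w w' : List Cell} (hp : w.Perm w')
    (h : height w' < height w) : height (u ++ w') < height (u ++ w) := by
  induction u with
  | nil => simpa using h
  | cons c u ih =>
    have h1 : ∀ x, (u ++ w').count x = (u ++ w).count x := fun x => by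
      rw [List.count_append, List.count_append, hp.count_eq]
    cases c <;> simp only [List.cons_append, height, h1] <;> omega

lemma LeftMove.height_lt {x y : List Cell} (h : LeftMove x y) : height y < height x := by
  cases h with
  | slide u v =>
    rw [List.append_assoc, List.append_assoc]
    refine height_append u ?_ ?_
    · exact List.Perm.swap _ _ _
    · simp [height]
      omega
  | jump u v =>
    rw [List.append_assoc, List.append_assoc]
    refine height_append u ?_ ?_
    · rw [List.perm_iff_count]
      intro a
      cases a <;> simp
    · simp [height]
      omega

lemma RightMove.height_lt {x y : List Cell} (h : RightMove x y) : height y < height x := by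
  cases h with
  | slide u v =>
    rw [List.append_assoc, List.append_assoc]
    refine height_append u ?_ ?_
    · exact List.Perm.swap _ _ _
    · simp [height]
  | jump u v =>
    rw [List.append_assoc, List.append_assoc]
    refine height_append u ?_ ?_
    · rw [List.perm_iff_count]
      intro a
      cases a <;> simp
    · simp [height]
      omega

/-- The game with a given starting position: its Left options are the games of the positions
reached by a move of Left, its Right options those of the positions reached by a move of Right. -/
def value (x : List Cell) : Game :=
  Game.mk {y // LeftMove x y} {y // RightMove x y} (fun y => value y.1) (fun y => value y.1)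
termination_by height x
decreasing_by
  · exact y.2.height_lt
  · exact y.2.height_lt

/-- The position `T^a □^a F^(a-1)`. -/
def start (a : ℕ) : List Cell :=
  List.replicate a T ++ List.replicate a E ++ List.replicate (a - 1) F

end Pool.Agent.V7H21.TF
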